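import Mathlib
import Pool.Agent.R271.QSMain

set_option autoImplicit false

/-!
MP_6e86bf_an, Q1: the answer is positive. For every uniformly separated metric space `M` the
measures `ω` and `wk` of weak non-compactness are equivalent in the Lipschitz-free space `F(M)`,
with a constant which does not depend on `M`.

Idea of the proof. If `ω(A) > r`, then `A` contains a sequence with `‖x_n - x_m‖ ≥ r` for `n ≠ m`,
since finite sets are weakly compact. By the main step (`gen`) a subsequence satisfies
`‖∑ a_j x_j‖ ≥ (r / 1600) ∑ |a_j|` whenever `∑ a_j = 0`. By a separation argument, every weak-star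
limit of this subsequence has distance at least `r / 1600` from `F(M)`. See the file
`Pool/Agent/R271/QSGen.lean` for the main step.
-/

open scoped ENNReal
open Pool.Agent.R271.QS

namespace Pool.Agent.Results.MP_6e86bf_an.MeasuresEquivalent

/-- **MP_6e86bf_an, Q1.** For every uniformly separated metric space `M`, every base point `o` and
every bounded subset `A` of the real (or complex) Lipschitz-free space over `M` one has
`ω(A) ≤ 1600 wk(A)`, where `ω` is De Blasi's measure of weak non-compactness. -/
theorem result (𝕜 : Type*) [RCLike 𝕜] (M : Type*) [MetricSpace M] (o : M)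
    (hM : ∃ ε > 0, ∀ x y : M, x ≠ y → ε ≤ dist x y)
    (A : Set (FreeSp 𝕜 M o)) (hA : Bornology.IsBounded A) :
    omega 𝕜 A ≤ 1600 * wk 𝕜 A := by
  have h1 := omega_le (𝕜 := 𝕜) (by norm_num) (sdl_free o hM) hA
  have h2 : ENNReal.ofReal (1 / (1 / 1600)) = 1600 := by
    norm_num
  rwa [h2] at h1

end Pool.Agent.Results.MP_6e86bf_an.MeasuresEquivalent
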